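import Mathlib
import Pool.Agent.H21.AllianceDef

namespace Pool.Agent.Results.MP_b7e006_co.Counter

open Pool.Agent.H21.Alliance

def adjB (a b : Fin 9) : Bool := ([446, 445, 91, 439, 431, 27, 260, 27, 91].getD a.val 0).testBit b.val

def G : SimpleGraph (Fin 9) where
  Adj a b := adjB a b = true
  symm := ⟨by decide +kernel⟩
  loopless := ⟨by decide +kernel⟩

instance : DecidableRel G.Adj := fun a b => inferInstanceAs (Decidable (adjB a b = true))

instance (D : Finset (Fin 9)) : Decidable (IsDA G D) := by unfold IsDA; infer_instance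

theorem key : ∀ D : Finset (Fin 9), 6 ∈ D → IsDA G D → ∃ v ∈ D, IsDA G (D.erase v) := by
  decide +kernel

theorem result : ∃ (n : ℕ) (G : SimpleGraph (Fin n)) (_ : DecidableRel G.Adj) (v : Fin n),
    2 ≤ G.minDegree ∧ ∀ D : Finset (Fin n), IsLocMin G D → v ∉ D := by
  refine ⟨9, G, inferInstance, 6, G.le_minDegree_of_forall_le_degree 2 (by decide +kernel),
    fun D hD h6 => ?_⟩
  obtain ⟨v, hv, h⟩ := key D h6 hD.1
  exact hD.2 v hv h

end Pool.Agent.Results.MP_b7e006_co.Counter
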